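import Pool.Agent.W426.SM.Stm

set_option autoImplicit false

namespace Pool.Agent.W505.SM.RC

open MeasureTheory Filter Pool.Agent.W426.SM

/-- one term: the integral over `ε p + i y` tends to `0` for small `ε`. -/
theorem term (h1 : S_RC1) (h2 : S_RC2) {B : Type} [Fintype B] {M : ℕ} (η p : B → ℝ)
    (P : MvPolynomial B ℂ) (a : Fin M → ℝ) (ℓ : Fin M → B → ℝ) (ω : B → ℝ)
    (hω : ∑ b, η b * ω b < 0)
    (hq : ∀ q, a q ≠ 0 ∨ (0 < ∑ b, ℓ q b * p b ∧ 0 ≤ ∑ b, ℓ q b * ω b)) :
    ∃ ε₁ : ℝ, 0 < ε₁ ∧ ∀ ε : ℝ, 0 < ε → ε < ε₁ →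
      (∀ R : ℝ, Integrable (fun y : B → ℝ =>
        EE η R P a ℓ (fun b => ((ε * p b : ℝ) : ℂ) + y b * Complex.I)) volume) ∧
      Tendsto (fun R : ℝ => ∫ y : B → ℝ,
        EE η R P a ℓ (fun b => ((ε * p b : ℝ) : ℂ) + y b * Complex.I)) atTop (nhds 0) := by
  classical
  -- choose r
  obtain ⟨r, hr, hr'⟩ : ∃ r : ℝ, 0 < r ∧ ∀ q, a q ≠ 0 → r * |∑ b, ℓ q b * ω b| ≤ |a q| / 4 := by
    have : ∀ᶠ r : ℝ in nhdsWithin 0 (Set.Ioi 0),
        ∀ q, a q ≠ 0 → r * |∑ b, ℓ q b * ω b| ≤ |a q| / 4 := by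
      rw [Filter.eventually_all]
      intro q
      by_cases h : a q = 0
      · exact Eventually.of_forall fun r hr => absurd h hr
      · have h4 : 0 < |a q| / 4 := by positivity
        have hc : Tendsto (fun r : ℝ => r * |∑ b, ℓ q b * ω b|) (nhdsWithin 0 (Set.Ioi 0))
            (nhds 0) := by
          have : Tendsto (fun r : ℝ => r * |∑ b, ℓ q b * ω b|) (nhds 0) (nhds (0 * _)) :=
            (continuous_id.mul continuous_const).tendsto 0
          rw [zero_mul] at this
          exact this.mono_left nhdsWithin_le_nhds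
        filter_upwards [hc.eventually (gt_mem_nhds h4)] with r hr _
        exact hr.le
    obtain ⟨r, h1, h2⟩ := (this.and self_mem_nhdsWithin).exists
    exact ⟨r, h2, h1⟩
  obtain ⟨ε₁, hε₁, hε₁'⟩ : ∃ ε₁ : ℝ, 0 < ε₁ ∧ ∀ ε, 0 < ε → ε < ε₁ →
      (∀ q, a q ≠ 0 → ε * |∑ b, ℓ q b * p b| ≤ |a q| / 4) ∧
      ε * (∑ b, η b * p b) + r * ∑ b, η b * ω b < 0 := by
    have e1 : ∀ᶠ r : ℝ in nhdsWithin 0 (Set.Ioi 0),
        ∀ q, a q ≠ 0 → r * |∑ b, ℓ q b * p b| ≤ |a q| / 4 := by
      rw [Filter.eventually_all]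
      intro q
      by_cases h : a q = 0
      · exact Eventually.of_forall fun r hr => absurd h hr
      · have h4 : 0 < |a q| / 4 := by positivity
        have hc : Tendsto (fun r : ℝ => r * |∑ b, ℓ q b * p b|) (nhdsWithin 0 (Set.Ioi 0))
            (nhds 0) := by
          have : Tendsto (fun r : ℝ => r * |∑ b, ℓ q b * p b|) (nhds 0) (nhds (0 * _)) :=
            (continuous_id.mul continuous_const).tendsto 0
          rw [zero_mul] at this
          exact this.mono_left nhdsWithin_le_nhds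
        filter_upwards [hc.eventually (gt_mem_nhds h4)] with r hr _
        exact hr.le
    have e2 : ∀ᶠ ε : ℝ in nhdsWithin 0 (Set.Ioi 0),
        ε * (∑ b, η b * p b) + r * ∑ b, η b * ω b < 0 := by
      have hc : Tendsto (fun ε : ℝ => ε * (∑ b, η b * p b) + r * ∑ b, η b * ω b)
          (nhdsWithin 0 (Set.Ioi 0)) (nhds (r * ∑ b, η b * ω b)) := by
        have : Tendsto (fun ε : ℝ => ε * (∑ b, η b * p b) + r * ∑ b, η b * ω b) (nhds 0)
            (nhds (0 * (∑ b, η b * p b) + r * ∑ b, η b * ω b)) :=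
          ((continuous_id.mul continuous_const).add continuous_const).tendsto 0
        rw [zero_mul, zero_add] at this
        exact this.mono_left nhdsWithin_le_nhds
      exact hc.eventually (gt_mem_nhds (mul_neg_of_pos_of_neg hr hω))
    have := e1.and e2
    rw [eventually_nhdsWithin_iff, Metric.eventually_nhds_iff] at this
    obtain ⟨d, hd, hd'⟩ := this
    refine ⟨d, hd, fun ε h0 h1 => hd' ?_ h0⟩
    rw [Real.dist_eq, sub_zero, abs_of_pos h0]
    exact h1
  refine ⟨ε₁, hε₁, fun ε h0 h1' => ?_⟩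
  obtain ⟨hA, hB⟩ := hε₁' ε h0 h1'
  have hreg : ∀ s : ℝ, 0 ≤ s → s ≤ 1 → ∀ q, a q + ∑ b, ℓ q b * (ε * p b + s * (r * ω b)) ≠ 0 := by
    intro s hs0 hs1 q
    have hexp : ∑ b, ℓ q b * (ε * p b + s * (r * ω b)) =
        ε * (∑ b, ℓ q b * p b) + s * (r * ∑ b, ℓ q b * ω b) := by
      rw [Finset.mul_sum, Finset.mul_sum, Finset.mul_sum, ← Finset.sum_add_distrib]
      exact Finset.sum_congr rfl fun b _ => by ring
    rw [hexp]
    by_cases h : a q = 0
    · rcases hq q with h' | ⟨h3, h4⟩
      · exact absurd h h'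
      · rw [h, zero_add]
        have : 0 < ε * (∑ b, ℓ q b * p b) := mul_pos h0 h3
        have : 0 ≤ s * (r * ∑ b, ℓ q b * ω b) := mul_nonneg hs0 (mul_nonneg hr.le h4)
        linarith
    · have g1 := hA q h
      have g2 := hr' q h
      intro habs
      have hpos : 0 < |a q| := abs_pos.mpr h
      have g3 : |a q| = |ε * (∑ b, ℓ q b * p b) + s * (r * ∑ b, ℓ q b * ω b)| := by
        have : a q = -(ε * (∑ b, ℓ q b * p b) + s * (r * ∑ b, ℓ q b * ω b)) := by linarith
        rw [this, abs_neg]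
      have g4 := abs_add_le (ε * (∑ b, ℓ q b * p b)) (s * (r * ∑ b, ℓ q b * ω b))
      rw [abs_mul ε, abs_of_pos h0, abs_mul s, abs_of_nonneg hs0, abs_mul r, abs_of_pos hr] at g4
      have g5 : s * (r * |∑ b, ℓ q b * ω b|) ≤ r * |∑ b, ℓ q b * ω b| :=
        mul_le_of_le_one_left (by positivity) hs1
      linarith
  have key := fun R : ℝ => h1 B η R P a ℓ (fun b => ε * p b) (fun b => r * ω b) hreg
  refine ⟨fun R => (key R).1, ?_⟩
  obtain ⟨C, hC⟩ := h2 B η P a ℓ (fun b => ε * p b + r * ω b) (by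
    intro q
    have := hreg 1 zero_le_one le_rfl q
    simpa using this)
  have hC' : ∀ R : ℝ, ‖∫ y : B → ℝ,
      EE η R P a ℓ (fun b => ((ε * p b : ℝ) : ℂ) + y b * Complex.I)‖ ≤
      C * Real.exp (R * (ε * (∑ b, η b * p b) + r * ∑ b, η b * ω b)) := by
    intro R
    rw [(key R).2]
    refine (hC R).trans (le_of_eq ?_)
    congr 3
    rw [Finset.mul_sum, Finset.mul_sum, ← Finset.sum_add_distrib]
    exact Finset.sum_congr rfl fun b _ => by ring
  refine squeeze_zero_norm hC' ?_
  have : Tendsto (fun R : ℝ => R * (ε * (∑ b, η b * p b) + r * ∑ b, η b * ω b)) atTop atBot :=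
    tendsto_id.atTop_mul_const_of_neg hB
  have := (Real.tendsto_exp_atBot.comp this).const_mul C
  rw [mul_zero] at this
  exact this

theorem main (h1 : S_RC1) (h2 : S_RC2) (h3 : S_RC3) : S_RC := by
  classical
  intro B _ η p β L M P a ℓ ω hη hp hω hq ⟨ε₀, hε₀, hid⟩
  -- the extra terms
  let m := Fintype.card B
  let eB : Fin m ≃ B := (Fintype.equivFin B).symm
  let PX : B → MvPolynomial B ℂ := fun b => MvPolynomial.C (η b : ℂ) *
    Polynomial.aeval (∑ b', MvPolynomial.C (η b' : ℂ) * MvPolynomial.X b') β.divX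
  let aX : B → Fin m → ℝ := fun b q => if eB q = b then 1 else 0
  let lX : B → Fin m → B → ℝ := fun b q b' => if eB q = b then 0 else if b' = eB q then 1 else 0
  have hX : ∀ b, ∃ ε₁ : ℝ, 0 < ε₁ ∧ ∀ ε : ℝ, 0 < ε → ε < ε₁ →
      (∀ R : ℝ, Integrable (fun y : B → ℝ =>
        EE η R (PX b) (aX b) (lX b) (fun b => ((ε * p b : ℝ) : ℂ) + y b * Complex.I)) volume) ∧
      Tendsto (fun R : ℝ => ∫ y : B → ℝ,
        EE η R (PX b) (aX b) (lX b) (fun b => ((ε * p b : ℝ) : ℂ) + y b * Complex.I)) atTop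
          (nhds 0) := by
    intro b
    apply term h1 h2 η p (PX b) (aX b) (lX b) (fun b' => if b' = b then -1 else 0)
    · simp only [mul_ite, mul_neg, mul_one, mul_zero, Finset.sum_ite_eq', Finset.mem_univ, if_true]
      linarith [hη b]
    · intro q
      by_cases h : eB q = b
      · left; simp [aX, h]
      · right
        simp only [lX, if_neg h]
        constructor
        · simp only [ite_mul, one_mul, zero_mul, Finset.sum_ite_eq', Finset.mem_univ, if_true]
          exact hp _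
        · apply le_of_eq
          symm
          apply Finset.sum_eq_zero
          intro b' _
          by_cases h' : b' = eB q
          · rw [if_neg (show ¬ b' = b from fun h'' => h (h' ▸ h''))]; simp
          · rw [if_neg h']; simp
  have hT := fun l => term h1 h2 η p (P l) (a l) (ℓ l) (ω l) (hω l) (hq l)
  choose εX hεX hεX' using hX
  choose εT hεT hεT' using hT
  obtain ⟨ε, hε, hεa, hεb, hεc⟩ : ∃ ε : ℝ, 0 < ε ∧ ε < ε₀ ∧ (∀ b, ε < εX b) ∧ (∀ l, ε < εT l) := by
    have : ∀ᶠ ε : ℝ in nhdsWithin 0 (Set.Ioi 0), ε < ε₀ ∧ (∀ b, ε < εX b) ∧ (∀ l, ε < εT l) := by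
      refine Eventually.and ?_ (Eventually.and ?_ ?_)
      · exact nhdsWithin_le_nhds (gt_mem_nhds hε₀)
      · rw [Filter.eventually_all]
        exact fun b => nhdsWithin_le_nhds (gt_mem_nhds (hεX b))
      · rw [Filter.eventually_all]
        exact fun b => nhdsWithin_le_nhds (gt_mem_nhds (hεT b))
    obtain ⟨ε, h1, h2⟩ := (this.and self_mem_nhdsWithin).exists
    exact ⟨ε, h2, h1⟩
  have hidε := hid ε hε hεa
  -- pointwise identity
  have hpt : ∀ (R : ℝ) (y : B → ℝ),
      β.eval 0 * (Complex.exp ((R : ℂ) * (∑ b, (η b : ℂ) * (((ε * p b : ℝ) : ℂ) + y b * Complex.I)) +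
        ∑ b, (((ε * p b : ℝ) : ℂ) + y b * Complex.I) ^ 2) /
          ∏ b, (((ε * p b : ℝ) : ℂ) + y b * Complex.I)) =
      (∑ l, EE η R (P l) (a l) (ℓ l) (fun b => ((ε * p b : ℝ) : ℂ) + y b * Complex.I)) -
      ∑ b, EE η R (PX b) (aX b) (lX b) (fun b => ((ε * p b : ℝ) : ℂ) + y b * Complex.I) := by
    intro R y
    have h := hidε y
    set z : B → ℂ := fun b => ((ε * p b : ℝ) : ℂ) + y b * Complex.I with hz
    have hz0 : ∀ b, z b ≠ 0 := by
      intro b hb
      have := congrArg Complex.re hb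
      simp [hz] at this
      rcases this with h | h
      · exact hε.ne' h
      · exact (hp b).ne' h
    change β.eval (∑ b, (η b : ℂ) * z b) / ∏ b, z b = _ at h
    change β.eval 0 * (Complex.exp ((R : ℂ) * (∑ b, (η b : ℂ) * z b) + ∑ b, z b ^ 2) /
      ∏ b, z b) = _
    set K := Complex.exp ((R : ℂ) * (∑ b, (η b : ℂ) * z b) + ∑ b, z b ^ 2) with hK
    have hL : (∑ l, EE η R (P l) (a l) (ℓ l) z) = K * (β.eval (∑ b, (η b : ℂ) * z b) / ∏ b, z b) := by
      rw [h, Finset.mul_sum]
      rfl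
    have hXt : ∀ b, EE η R (PX b) (aX b) (lX b) z =
        K * ((η b : ℂ) * z b * (β.divX.eval (∑ b, (η b : ℂ) * z b)) / ∏ b, z b) := by
      intro b
      unfold EE
      rw [← hK]
      congr 1
      have e1 : MvPolynomial.eval z (PX b) = (η b : ℂ) * β.divX.eval (∑ b, (η b : ℂ) * z b) := by
        simp only [PX, map_mul, MvPolynomial.eval_C]
        congr 1
        have : MvPolynomial.eval z (Polynomial.aeval
            (∑ b', MvPolynomial.C (η b' : ℂ) * MvPolynomial.X b' : MvPolynomial B ℂ) β.divX) =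
            Polynomial.eval (MvPolynomial.eval z
              (∑ b', MvPolynomial.C (η b' : ℂ) * MvPolynomial.X b' : MvPolynomial B ℂ)) β.divX := by
          rw [Polynomial.aeval_def, Polynomial.hom_eval₂]
          have hcomp : (MvPolynomial.eval z).comp (algebraMap ℂ (MvPolynomial B ℂ)) =
              RingHom.id ℂ := by
            ext c
            simp
          rw [hcomp]
          rfl
        rw [this]
        simp
      have e2 : ∏ q, aff (aX b q) (lX b q) z = ∏ q, (if eB q = b then 1 else z (eB q)) := by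
        apply Finset.prod_congr rfl
        intro q _
        unfold aff
        by_cases hb : eB q = b
        · simp [aX, lX, hb]
        · simp only [aX, lX, if_neg hb]
          rw [Complex.ofReal_zero, zero_add, Finset.sum_eq_single (eB q)]
          · simp
          · intro b' _ hb'
            rw [if_neg hb']
            simp
          · intro h'
            exact absurd (Finset.mem_univ _) h'
      have e3 : ∏ q, (if eB q = b then 1 else z (eB q)) = ∏ b', (if b' = b then 1 else z b') :=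
        Equiv.prod_comp eB (fun b' => if b' = b then 1 else z b')
      have e4 : (∏ b', z b') = z b * ∏ b', (if b' = b then 1 else z b') := by
        rw [← Finset.mul_prod_erase Finset.univ z (Finset.mem_univ b),
          ← Finset.mul_prod_erase Finset.univ (fun b' => if b' = b then 1 else z b')
            (Finset.mem_univ b)]
        simp only [if_true, one_mul]
        congr 1
        apply Finset.prod_congr rfl
        intro b' hb'
        rw [if_neg (Finset.ne_of_mem_erase hb')]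
      rw [e1, e2, e3, e4]
      have hb0 := hz0 b
      have hne : (∏ b', (if b' = b then 1 else z b')) ≠ 0 := by
        rw [Finset.prod_ne_zero_iff]
        intro b' _
        split_ifs
        · exact one_ne_zero
        · exact hz0 b'
      field_simp
    rw [hL, Finset.sum_congr rfl (fun b _ => hXt b), ← Finset.mul_sum, ← Finset.sum_div,
      ← Finset.sum_mul, ← mul_sub, ← sub_div]
    have hβ : β.eval (∑ b, (η b : ℂ) * z b) =
        β.divX.eval (∑ b, (η b : ℂ) * z b) * (∑ b, (η b : ℂ) * z b) + β.eval 0 := by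
      conv_lhs => rw [← Polynomial.divX_mul_X_add β]
      simp [Polynomial.coeff_zero_eq_eval_zero]
    rw [hβ]
    ring
  -- integrate
  have hint : ∀ R : ℝ, β.eval 0 * (∫ y : B → ℝ,
      Complex.exp ((R : ℂ) * (∑ b, (η b : ℂ) * (((ε * p b : ℝ) : ℂ) + y b * Complex.I)) +
        ∑ b, (((ε * p b : ℝ) : ℂ) + y b * Complex.I) ^ 2) /
          ∏ b, (((ε * p b : ℝ) : ℂ) + y b * Complex.I)) =
      (∑ l, ∫ y : B → ℝ, EE η R (P l) (a l) (ℓ l) (fun b => ((ε * p b : ℝ) : ℂ) + y b * Complex.I)) -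
      ∑ b, ∫ y : B → ℝ, EE η R (PX b) (aX b) (lX b)
        (fun b => ((ε * p b : ℝ) : ℂ) + y b * Complex.I) := by
    intro R
    rw [← integral_const_mul]
    simp_rw [hpt R]
    rw [integral_sub, integral_finsetSum, integral_finsetSum]
    · exact fun b _ => (hεX' b ε hε (hεb b)).1 R
    · exact fun l _ => (hεT' l ε hε (hεc l)).1 R
    · exact integrable_finsetSum _ fun l _ => (hεT' l ε hε (hεc l)).1 R
    · exact integrable_finsetSum _ fun b _ => (hεX' b ε hε (hεb b)).1 R
  have hlim1 := (h3 B η (fun b => ε * p b) hη (fun b => mul_pos hε (hp b))).const_mul (β.eval 0)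
  simp_rw [hint] at hlim1
  have hlim2 : Tendsto (fun R : ℝ =>
      (∑ l, ∫ y : B → ℝ, EE η R (P l) (a l) (ℓ l) (fun b => ((ε * p b : ℝ) : ℂ) + y b * Complex.I)) -
      ∑ b, ∫ y : B → ℝ, EE η R (PX b) (aX b) (lX b)
        (fun b => ((ε * p b : ℝ) : ℂ) + y b * Complex.I)) atTop (nhds (∑ _l : Fin L, (0 : ℂ) -
          ∑ _b : B, (0 : ℂ))) := by
    apply Tendsto.sub
    · exact tendsto_finsetSum _ fun l _ => (hεT' l ε hε (hεc l)).2
    · exact tendsto_finsetSum _ fun b _ => (hεX' b ε hε (hεb b)).2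
  have := tendsto_nhds_unique hlim1 hlim2
  simp only [Finset.sum_const_zero, sub_zero] at this
  rcases mul_eq_zero.mp this with h | h
  · exact h
  · exfalso
    have : (2 * Real.pi : ℂ) ≠ 0 := by
      norm_cast
      positivity
    exact pow_ne_zero _ this h

end Pool.Agent.W505.SM.RC
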