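import Pool.Agent.W426.SM.Stm

set_option autoImplicit false

namespace Pool.Agent.W505.SM.RC3

open MeasureTheory Filter Pool.Agent.W426.SM Complex

theorem inner_eq (c x : ℝ) :
    ∫ y : ℝ, cexp ((c : ℂ) * ((x : ℂ) + y * I) + ((x : ℂ) + y * I) ^ 2) =
      ((Real.sqrt Real.pi * Real.exp (-(1 / 4) * c ^ 2) : ℝ) : ℂ) := by
  have h1 : ∀ y : ℝ, cexp ((c : ℂ) * ((x : ℂ) + y * I) + ((x : ℂ) + y * I) ^ 2) =
      cexp ((-1 : ℂ) * y ^ 2 + ((c + 2 * x) * I) * y + (c * x + x ^ 2)) := by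
    intro y
    congr 1
    ring_nf
    rw [I_sq]
    ring
  simp_rw [h1]
  rw [integral_cexp_quadratic (by simp)]
  have h2 : ((Real.pi : ℂ) / -(-1)) ^ (1 / 2 : ℂ) = ((Real.sqrt Real.pi : ℝ) : ℂ) := by
    rw [neg_neg, div_one, Real.sqrt_eq_rpow, Complex.ofReal_cpow Real.pi_pos.le]
    norm_num
  rw [h2]
  push_cast
  congr 2
  ring_nf
  rw [I_sq]
  ring

theorem J_eq (η x R : ℝ) (hx : 0 < x) :
    ∫ y : ℝ, cexp ((R : ℂ) * ((η : ℂ) * ((x : ℂ) + y * I)) + ((x : ℂ) + y * I) ^ 2) /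
      ((x : ℂ) + y * I) =
    ∫ t : ℝ in Set.Ioi 0, ((Real.sqrt Real.pi * Real.exp (-(1 / 4) * (R * η - t) ^ 2) : ℝ) : ℂ) := by
  let f : ℝ → ℝ → ℂ := fun y t =>
    cexp (((R * η - t : ℝ) : ℂ) * ((x : ℂ) + y * I) + ((x : ℂ) + y * I) ^ 2)
  have h1 : ∀ y : ℝ, cexp ((R : ℂ) * ((η : ℂ) * ((x : ℂ) + y * I)) + ((x : ℂ) + y * I) ^ 2) /
      ((x : ℂ) + y * I) = ∫ t : ℝ in Set.Ioi 0, f y t := by
    intro y
    have h2 : ∀ t : ℝ, f y t =
        cexp ((R : ℂ) * ((η : ℂ) * ((x : ℂ) + y * I)) + ((x : ℂ) + y * I) ^ 2) *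
          cexp (-((x : ℂ) + y * I) * t) := by
      intro t
      simp only [f]
      rw [← Complex.exp_add]
      congr 1
      push_cast
      ring
    simp_rw [h2]
    rw [integral_const_mul, integral_exp_mul_complex_Ioi (by simp [hx])]
    rw [Complex.ofReal_zero, mul_zero, Complex.exp_zero, neg_div_neg_eq, mul_one_div]
  simp_rw [h1]
  rw [integral_integral_swap]
  · apply setIntegral_congr_fun measurableSet_Ioi
    intro t _
    exact inner_eq (R * η - t) x
  · have hg1 : Integrable (fun y : ℝ => Real.exp (R * η * x + x ^ 2) * Real.exp (-1 * y ^ 2)) volume :=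
      (integrable_exp_neg_mul_sq one_pos).const_mul _
    have hg2 : Integrable (fun t : ℝ => Real.exp (-x * t)) (volume.restrict (Set.Ioi 0)) :=
      integrableOn_exp_mul_Ioi (by linarith) 0
    refine (hg1.mul_prod hg2).mono' ?_ ?_
    · apply Continuous.aestronglyMeasurable
      simp only [f, Function.uncurry_def]
      fun_prop
    · refine Eventually.of_forall fun z => ?_
      simp only [f, Function.uncurry_def, Complex.norm_exp]
      rw [← Real.exp_add, ← Real.exp_add]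
      apply le_of_eq
      congr 1
      simp [pow_two]
      ring

theorem one (η x : ℝ) (hη : 0 < η) (hx : 0 < x) :
    Tendsto (fun R : ℝ => ∫ y : ℝ,
      cexp ((R : ℂ) * ((η : ℂ) * ((x : ℂ) + y * I)) + ((x : ℂ) + y * I) ^ 2) /
      ((x : ℂ) + y * I)) atTop (nhds (2 * Real.pi : ℂ)) := by
  simp_rw [J_eq η x _ hx]
  have hg : Integrable (fun s : ℝ => Real.sqrt Real.pi * Real.exp (-(1 / 4) * s ^ 2)) :=
    (integrable_exp_neg_mul_sq (by norm_num)).const_mul _
  have h1 : ∀ R : ℝ, ∫ t : ℝ in Set.Ioi 0,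
      ((Real.sqrt Real.pi * Real.exp (-(1 / 4) * (R * η - t) ^ 2) : ℝ) : ℂ) =
      ((∫ s : ℝ in Set.Iic (R * η), Real.sqrt Real.pi * Real.exp (-(1 / 4) * s ^ 2) : ℝ) : ℂ) := by
    intro R
    rw [integral_complex_ofReal]
    congr 1
    rw [← integral_indicator measurableSet_Ioi, integral_Iic_eq_integral_Iio,
      ← integral_indicator measurableSet_Iio]
    rw [← integral_sub_left_eq_self (Set.indicator (Set.Iio (R * η)) _) volume (R * η)]
    congr 1
    ext t
    by_cases ht : 0 < t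
    · rw [Set.indicator_of_mem (show t ∈ Set.Ioi 0 from ht),
        Set.indicator_of_mem (show R * η - t ∈ Set.Iio (R * η) by simpa using ht)]
    · rw [Set.indicator_of_notMem (show t ∉ Set.Ioi 0 from ht),
        Set.indicator_of_notMem (show R * η - t ∉ Set.Iio (R * η) by simpa using ht)]
  simp_rw [h1]
  have h2 : Tendsto (fun R : ℝ =>
      ∫ s : ℝ in Set.Iic (R * η), Real.sqrt Real.pi * Real.exp (-(1 / 4) * s ^ 2)) atTop
      (nhds (∫ s : ℝ, Real.sqrt Real.pi * Real.exp (-(1 / 4) * s ^ 2))) := by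
    have hc : AECover volume atTop (fun R : ℝ => Set.Iic (R * η)) :=
      aecover_Iic (tendsto_id.atTop_mul_const hη)
    exact hc.integral_tendsto_of_countably_generated hg
  have h3 : ∫ s : ℝ, Real.sqrt Real.pi * Real.exp (-(1 / 4) * s ^ 2) = 2 * Real.pi := by
    rw [integral_const_mul, integral_gaussian]
    rw [← Real.sqrt_mul Real.pi_pos.le, show Real.pi * (Real.pi / (1 / 4)) = (2 * Real.pi) ^ 2 by ring,
      Real.sqrt_sq (by positivity)]
  rw [h3] at h2
  have := (Complex.continuous_ofReal.tendsto _).comp h2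
  push_cast at this
  exact this

theorem main : S_RC3 := by
  classical
  intro B _ η x hη hx
  have h1 : ∀ R : ℝ, (∫ y : B → ℝ,
      Complex.exp ((R : ℂ) * (∑ b, (η b : ℂ) * ((x b : ℂ) + y b * Complex.I)) +
        ∑ b, ((x b : ℂ) + y b * Complex.I) ^ 2) / ∏ b, ((x b : ℂ) + y b * Complex.I)) =
      ∏ b, ∫ y : ℝ, cexp ((R : ℂ) * ((η b : ℂ) * ((x b : ℂ) + y * I)) + ((x b : ℂ) + y * I) ^ 2) /
        ((x b : ℂ) + y * I) := by
    intro R
    rw [← integral_fintype_prod_volume_eq_prod]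
    congr 1
    ext y
    rw [Finset.prod_div_distrib, ← Complex.exp_sum, Finset.mul_sum, Finset.sum_add_distrib]
  simp_rw [h1]
  have := tendsto_finsetProd (Finset.univ : Finset B) (fun b _ => one (η b) (x b) (hη b) (hx b))
  simpa using this

end Pool.Agent.W505.SM.RC3
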